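import Pool.Agent.N874.HP.A8

/-!
# The Hesse pencil through a constant elliptic curve

Let `k` be a finite field whose order `q` is congruent to `1` modulo three and prime to `6`, and
`E_0 : y ^ 2 = x ^ 3 + a x + b` an elliptic curve over `k`. The pencil spanned by the cubic of `E_0` and
its Hessian consists of the curves with the same nine flexes; its members
`E_s : y ^ 2 = x ^ 3 + A(s) x + B(s)`, `s` in a function field `K` over `k`, have points of order three
defined over constant extensions of `K`. The singular members are the zeros of a polynomial `D` of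
degree at most four.
-/

set_option autoImplicit false
set_option linter.all false
set_option maxHeartbeats 4000000

open Polynomial Pool.Agent.W343.BSD Pool.Agent.W313.Gr

namespace Pool.Agent.Results.MP_48b749_nt.ConstantThreeTorsionPencils

section defs

/-- The coefficient `A(s)` of `x` of the curve `E_s`. -/
def coeffA {R : Type} [CommRing R] (a b s : R) : R :=
  a - 18 * b * s - 18 * a ^ 2 * s ^ 2 + 54 * a * b * s ^ 3 - 27 * (a ^ 3 + 9 * b ^ 2) * s ^ 4

/-- The constant coefficient `B(s)` of the curve `E_s`. -/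
def coeffB {R : Type} [CommRing R] (a b s : R) : R :=
  b + 4 * a ^ 2 * s - 45 * a * b * s ^ 2 + 270 * b ^ 2 * s ^ 3 + 135 * a ^ 2 * b * s ^ 4 +
    (486 * a * b ^ 2 + 108 * a ^ 4) * s ^ 5 - (243 * a ^ 3 * b + 1458 * b ^ 3) * s ^ 6

/-- The polynomial `D(s)`; one has `4 A(s) ^ 3 + 27 B(s) ^ 2 = (4 a ^ 3 + 27 b ^ 2) D(s) ^ 3`. -/
def nodePoly {R : Type} [CommRing R] (a b s : R) : R :=
  1 + 18 * a * s ^ 2 - 108 * b * s ^ 3 - 27 * a ^ 2 * s ^ 4

/-- The coefficient of `x` of `E_s`, where `a`, `b` are in `k` and `s` is in `K`. -/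
noncomputable def pA {k K : Type} [Field k] [Field K] [Algebra k K] (a b : k) (s : K) : K :=
  coeffA (algebraMap k K a) (algebraMap k K b) s

/-- The constant coefficient of `E_s`, where `a`, `b` are in `k` and `s` is in `K`. -/
noncomputable def pB {k K : Type} [Field k] [Field K] [Algebra k K] (a b : k) (s : K) : K :=
  coeffB (algebraMap k K a) (algebraMap k K b) s

/-- `D(s)`, where `a`, `b` are in `k` and `s` is in `K`. -/
noncomputable def pD {k K : Type} [Field k] [Field K] [Algebra k K] (a b : k) (s : K) : K :=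
  nodePoly (algebraMap k K a) (algebraMap k K b) s

/-- The number of `k`-rational points of `E_0 : y ^ 2 = x ^ 3 + a x + b`. -/
noncomputable def points {k : Type} [Field k] (a b : k) : ℕ :=
  Nat.card {P : k × k // P.2 ^ 2 = P.1 ^ 3 + a * P.1 + b} + 1

/-- `1`, `2`, `4` if the number of points of `E_0` is congruent to `0`, `1`, `2` modulo three. -/
noncomputable def period {k : Type} [Field k] (a b : k) : ℕ :=
  if points a b % 3 = 0 then 1 else if points a b % 3 = 1 then 2 else 4

/-- `4` if the number of points of `E_0` is divisible by three and `0` otherwise. -/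
noncomputable def shift {k : Type} [Field k] (a b : k) : ℕ := if points a b % 3 = 0 then 4 else 0

open Classical in
/-- The sum of the multiplicities in `P` modulo three of the two roots of `X ^ 2 - (q + 1 - n) X + 1` in
an algebraic closure of the field with three elements, where `n` is the number of points of `E_0`. -/
noncomputable def numRoots {k : Type} [Field k] (a b : k) (P : Polynomial ℤ) : ℕ :=
  ((X ^ 2 - C (((Nat.card k : ℤ) + 1 - points a b : ℤ) : AlgebraicClosure (ZMod 3)) * X + 1 :
    Polynomial (AlgebraicClosure (ZMod 3))).roots.map fun z =>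
      (P.map (Int.castRingHom (AlgebraicClosure (ZMod 3)))).rootMultiplicity z).sum

open Classical in
/-- The sum of `3 ^ v₃(deg v)` over the zeros `v` of `D(s)` and, if `a = 0`, the poles `v` of `s`, for
which the period divides `deg v`. -/
noncomputable def weight {k K : Type} [Field k] [Field K] [Algebra k K] (a b : k) (s : K) : ℕ :=
  ∑ᶠ v : FF.Place k K, if (0 < v.ord (pD a b s) ∨ a = 0 ∧ v.ord s < 0) ∧ period a b ∣ S.deg v then
    3 ^ padicValNat 3 (S.deg v) else 0

/-- `y ^ 2 = x ^ 3 + a x + b` is an elliptic curve with a non-constant `j`-invariant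
`6912 a ^ 3 / (4 a ^ 3 + 27 b ^ 2)`. -/
def NonIsotrivial (k : Type) {K : Type} [Field k] [Field K] [Algebra k K] (a b : K) : Prop :=
  4 * a ^ 3 + 27 * b ^ 2 ≠ 0 ∧
    ∀ c : k, 6912 * a ^ 3 / (4 * a ^ 3 + 27 * b ^ 2) ≠ algebraMap k K c

/-- If `L(T, E)` is `(1 - |k| T) ^ m G(T)` with `G` in `ℤ[T]` then `m ≤ N`. -/
def OrderBound (k : Type) {K : Type} [Field k] [Field K] [Algebra k K] (a b : K) (N : ℕ) : Prop :=
  ∀ m : ℕ, S.VanishesTo k a b m → m ≤ N

/-- The rank is at least `R` and the order of vanishing `r` of `L(T, E)` at `T = 1 / |k|` (if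
`L(T, E)` is a polynomial) is at most `R`. If the rank is at most the order then both are `R`. -/
def RankAndOrder (k : Type) {K : Type} [Field k] [Field K] [Algebra k K] (a b : K) (R : ℕ) : Prop :=
  R ≤ rank a b ∧ OrderBound k a b R ∧
    ∀ r : ℕ, HasOrder k a b r → r ≤ R ∧ (rank a b ≤ r → r = R ∧ rank a b = R)

/-- The curve `E_s` has a non-constant `j`-invariant. If `P` is the numerator of the zeta function of `K`
then the order of vanishing `m` of `L(T, E_s)` satisfies `m + shift ≤ numRoots P + weight s`, and if the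
rank is at least `R` and `numRoots P + weight s ≤ R + shift`, then `RankAndOrder` holds with this
`R`. -/
def Conclusions {k K : Type} [Field k] [Field K] [Algebra k K] (a b : k) (s : K) : Prop :=
  NonIsotrivial k (pA a b s) (pB a b s) ∧
    ∀ P : Polynomial ℤ, S.IsZetaNum k K P →
      (∀ m : ℕ, S.VanishesTo k (pA a b s) (pB a b s) m →
        m + shift a b ≤ numRoots a b P + weight a b s) ∧
      ∀ R : ℕ, R ≤ rank (pA a b s) (pB a b s) → numRoots a b P + weight a b s ≤ R + shift a b →
        RankAndOrder k (pA a b s) (pB a b s) R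

/-- The polynomials obtained from `t` by steps `h ↦ c h ^ m + e` with `c` not zero and `m` odd,
dividing `Q ^ r - 1` for some odd `r`, and `h ↦ h ^ p - u ^ (p - 1) h` with `u` not zero and `p` the
characteristic. -/
inductive Tower (k : Type) [Field k] (Q : ℕ) : k[X] → Prop
  | base : Tower k Q X
  | pow (h : k[X]) (c e : k) (m r : ℕ) : Tower k Q h → c ≠ 0 → Odd m → Odd r → m ∣ Q ^ r - 1 →
      Tower k Q (C c * h ^ m + C e)
  | add (h : k[X]) (u : k) (p : ℕ) : Tower k Q h → u ≠ 0 → p.Prime → (p : k) = 0 →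
      Tower k Q (h ^ p - C (u ^ (p - 1)) * h)

end defs

section proof

open Pool.Agent.N874

theorem eqA {R : Type} [CommRing R] (a b s : R) : coeffA a b s = HP.hA a b 1 s := by
  unfold coeffA HP.hA
  ring

theorem eqB {R : Type} [CommRing R] (a b s : R) : coeffB a b s = HP.hB a b 1 s := by
  unfold coeffB HP.hB
  ring

theorem eqD {R : Type} [CommRing R] (a b s : R) : nodePoly a b s = HP.dl a b 1 s := by
  unfold nodePoly HP.dl
  ring

theorem tower_iter {k : Type} [Field k] {Q : ℕ} {h : k[X]} (hh : Tower k Q h) : HP.Iter k Q h := by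
  induction hh with
  | base => exact HP.Iter.X
  | pow h c e m r _ h1 h2 h3 h4 ih => exact HP.Iter.pow h c e m r ih h1 h2 h3 h4
  | add h u p _ h1 h2 h3 ih => exact HP.Iter.add h u p ih h1 h2 h3

section inv

variable {k : Type} [Field k] [Finite k]

theorem tr_eq (a b : k) : HP.tr k a b = (((Nat.card k : ℤ) + 1 - points a b : ℤ) : ZMod 3) := by
  unfold HP.tr points
  congr 1
  push_cast
  have e : Nat.card (Sol k a b) = Nat.card {P : k × k // P.2 ^ 2 = P.1 ^ 3 + a * P.1 + b} := rfl
  rw [e]
  ring

theorem tr_mod (hq : ((Nat.card k : ℕ) : ZMod 3) = 1) (a b : k) :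
    HP.tr k a b = 2 - ((points a b % 3 : ℕ) : ZMod 3) := by
  rw [tr_eq]
  push_cast
  rw [hq, ZMod.natCast_mod]
  ring

theorem cases (hq : ((Nat.card k : ℕ) : ZMod 3) = 1) (a b : k) :
    (HP.tr k a b = 2 ↔ points a b % 3 = 0) ∧ (HP.tr k a b = 1 ↔ points a b % 3 = 1) := by
  have h := tr_mod hq a b
  have h3 : points a b % 3 < 3 := Nat.mod_lt _ (by norm_num)
  rw [h]
  generalize points a b % 3 = n at h3
  interval_cases n <;> decide

theorem nn_eq (hq : ((Nat.card k : ℕ) : ZMod 3) = 1) (a b : k) :
    HP.nn (HP.tr k a b) = period a b := by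
  obtain ⟨h1, h2⟩ := cases hq a b
  unfold HP.nn period
  simp only [h1, h2]

theorem shift_eq (hq : ((Nat.card k : ℕ) : ZMod 3) = 1) (a b : k) :
    (if HP.tr k a b = 2 then 4 else 0) = shift a b := by
  obtain ⟨h1, h2⟩ := cases hq a b
  unfold shift
  simp only [h1]

theorem numRoots_eq {a b : k} {x y : HP.Om} (h : HP.Bt (HP.tr k a b) x y) (P : Polynomial ℤ) :
    numRoots a b P = (P.map (Int.castRingHom HP.Om)).rootMultiplicity x +
      (P.map (Int.castRingHom HP.Om)).rootMultiplicity y := by
  have h1 : (X ^ 2 - C (((Nat.card k : ℤ) + 1 - points a b : ℤ) : AlgebraicClosure (ZMod 3)) * X + 1 :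
    Polynomial (AlgebraicClosure (ZMod 3))) = (X - C x) * (X - C y) := by
    have h2 : ((((Nat.card k : ℤ) + 1 - points a b : ℤ)) : AlgebraicClosure (ZMod 3)) = x + y := by
      rw [h.sum, tr_eq, map_intCast]
    have h3 : C x * C y = (1 : Polynomial (AlgebraicClosure (ZMod 3))) := by
      rw [← C_mul, h.prod, C_1]
    rw [h2, C_add]
    linear_combination -h3
  unfold numRoots
  rw [h1, roots_mul (mul_ne_zero (X_sub_C_ne_zero x) (X_sub_C_ne_zero y)), roots_X_sub_C,
    roots_X_sub_C, Multiset.map_add, Multiset.map_singleton, Multiset.map_singleton,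
    Multiset.sum_add, Multiset.sum_singleton, Multiset.sum_singleton]

theorem weight_eq {K : Type} [Field K] [Algebra k K] (hq : ((Nat.card k : ℕ) : ZMod 3) = 1)
    (a b : k) (s : K) : weight a b s = HP.cuspSum a b s := by
  classical
  unfold weight HP.cuspSum
  apply finsum_congr
  intro v
  have e : pD a b s = HP.cD a b s := eqD _ _ _
  unfold HP.IsCusp HP.phi
  rw [e, nn_eq hq]
  split_ifs <;> first | rfl | tauto

end inv

theorem card_mod {k : Type} [Field k] [Finite k] (hq : 3 ∣ Nat.card k - 1) :
    ((Nat.card k : ℕ) : ZMod 3) = 1 := by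
  have h1 : 1 ≤ Nat.card k := Nat.card_pos
  have h2 := (ZMod.natCast_eq_zero_iff _ _).2 hq
  rw [Nat.cast_sub h1, Nat.cast_one] at h2
  linear_combination h2

/-- the conclusions for one curve -/
theorem common {k K : Type} [Field k] [Finite k] [Field K] [Algebra k K] (hK : IsCurveField k K)
    (h2 : (2 : k) ≠ 0) (h3 : (3 : k) ≠ 0) (hq : 3 ∣ Nat.card k - 1) {a b : k}
    (hd : 4 * a ^ 3 + 27 * b ^ 2 ≠ 0) {s : K} (hs : ∀ c : k, s ≠ algebraMap k K c) :
    Conclusions a b s := by
  haveI : FF.IsFF k K := ⟨hK.essFiniteType, hK.trdeg_eq_one⟩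
  have hr : constDeg k K = 1 := TH958.T4.constDeg_eq_one hK.algClosed
  have htr := TH180.R2.transc hr hs
  have hq' := card_mod hq
  have hD := HP.cD_ne htr a b
  have eA : pA a b s = HP.cA a b s := eqA _ _ _
  have eB : pB a b s = HP.cB a b s := eqB _ _ _
  have hΔ : 4 * HP.cA a b s ^ 3 + 27 * HP.cB a b s ^ 2 ≠ 0 := by
    rw [HP.cdisc]
    exact mul_ne_zero (HP.cst_disc hd) (pow_ne_zero 3 hD)
  unfold Conclusions
  rw [eA, eB]
  refine ⟨⟨hΔ, fun c hc => HP.noniso h2 h3 hd htr c ((div_eq_iff hΔ).1 hc)⟩, fun P hP => ?_⟩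
  obtain ⟨x, y, hxy⟩ := HP.exists_Bt (HP.tr k a b)
  have hb : ∀ m : ℕ, S.VanishesTo k (HP.cA a b s) (HP.cB a b s) m →
      m + shift a b ≤ numRoots a b P + weight a b s := by
    intro m hm
    rw [← shift_eq hq', numRoots_eq hxy, weight_eq hq']
    exact HP.bound h2 h3 hq' hd hD ((S.isZetaNum_iff P).1 hP) hr hxy hm
  refine ⟨hb, fun R hR hw => ?_⟩
  have hU : ∀ m : ℕ, S.VanishesTo k (HP.cA a b s) (HP.cB a b s) m → m ≤ R := by
    intro m hm
    have := hb m hm
    omega
  exact ⟨hR, hU, fun r hr' => TH180.R4.concl4 hR hU r hr'⟩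

theorem poly_nonconst {k : Type} [Field k] {g : k[X]} (hg : 0 < g.natDegree) (c : k) :
    algebraMap k[X] (RatFunc k) g ≠ algebraMap k (RatFunc k) c := by
  intro hz
  have h1 : g = C c := RatFunc.algebraMap_injective k hz
  rw [h1, natDegree_C] at hg
  exact lt_irrefl _ hg

theorem numRoots_one {k : Type} [Field k] [Finite k] (a b : k) : numRoots a b 1 = 0 := by
  obtain ⟨x, y, hxy⟩ := HP.exists_Bt (HP.tr k a b)
  rw [numRoots_eq hxy, Polynomial.map_one]
  have h : ∀ x : HP.Om, (1 : Polynomial HP.Om).rootMultiplicity x = 0 := by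
    intro x
    apply rootMultiplicity_eq_zero
    rw [IsRoot.def, eval_one]
    exact one_ne_zero
  rw [h, h]

end proof

/-- Let `k` be a finite field of characteristic at least `5` with `q` elements, `q` congruent to `1`
modulo three, and let `a`, `b` in `k` with `4 a ^ 3 + 27 b ^ 2` not zero. Let `n` be the number of points
of `E_0 : y ^ 2 = x ^ 3 + a x + b` over `k`, and `e = 1`, `2`, `4` according to `n = 0`, `1`, `2` modulo
three. For `s` in a function field over `k` let `E_s` be the curve `y ^ 2 = x ^ 3 + A(s) x + B(s)` of the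
Hesse pencil through `E_0`.

(1) Let `K` be the function field of a curve over `k` and `s` in `K` non-constant. Then `E_s` has a
non-constant `j`-invariant. Its `L`-function vanishes at `1 / q` to order at most `N + W - d`, where `N`
is the number of roots modulo three of the numerator of the zeta function of `K` among the two roots of
`X ^ 2 - (q + 1 - n) X + 1`, `W` is the sum of `3 ^ v₃(deg v)` over the zeros `v` of `D(s)`, and the
poles of `s` if `a = 0`, for which `e` divides `deg v`, and `d` is `4` if `e = 1` and `0` otherwise. If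
the rank is at least `R` and `N + W - d` is at most `R`, the order is at most `R`, and rank and order
are `R` if the rank is at most the order.

(2) Let `n` be prime to three. Over `K = k(t)` the last conclusion holds with `R = 0` for `s = h(t)` for
all polynomials `h` obtained from `t` by steps `h ↦ c h ^ m + c'` with `c` not zero and `m` odd, dividing
`q ^ (e r / 2) - 1` for some odd `r`, and `h ↦ h ^ p - u ^ (p - 1) h` with `u` not zero and `p` the
characteristic. -/
theorem result (k : Type) [Field k] [Finite k] (h2 : (2 : k) ≠ 0) (h3 : (3 : k) ≠ 0)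
    (hq : 3 ∣ Nat.card k - 1) (a b : k) (hd : 4 * a ^ 3 + 27 * b ^ 2 ≠ 0) :
    (∀ (K : Type) [Field K] [Algebra k K], IsCurveField k K →
      ∀ s : K, (∀ c : k, s ≠ algebraMap k K c) → Conclusions a b s) ∧
    (¬ 3 ∣ points a b → ∀ h : k[X], Tower k (Nat.card k ^ (period a b / 2)) h →
      RankAndOrder k (pA a b (algebraMap k[X] (RatFunc k) h))
        (pB a b (algebraMap k[X] (RatFunc k) h)) 0) := by
  classical
  refine ⟨fun K _ _ hK s hs => common hK h2 h3 hq hd hs, fun hn h hh => ?_⟩
  letI : Fintype k := Fintype.ofFinite k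
  have hq' := card_mod hq
  have hit := tower_iter hh
  have hc := (common TH958.T4.isCurveField_rat h2 h3 hq hd
    (poly_nonconst (Pool.Agent.N874.HP.iter_deg hit))).2 1 Pool.Agent.W309.RF.isZetaNum_rat
  obtain ⟨c1, c2⟩ := cases hq' a b
  have ht : Pool.Agent.N874.HP.tr k a b ≠ 2 := fun h5 => hn (Nat.dvd_of_mod_eq_zero (c1.1 h5))
  have he : period a b / 2 = if Pool.Agent.N874.HP.tr k a b = 1 then 1 else 2 := by
    unfold period
    rw [if_neg (fun h5 => hn (Nat.dvd_of_mod_eq_zero h5))]
    simp only [c2]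
    split_ifs <;> rfl
  rw [he] at hit
  apply hc.2 0 (by rw [Nat.cast_zero]; exact zero_le)
  rw [numRoots_one, weight_eq hq', Pool.Agent.N874.HP.cuspSum_iter h3 h2 hq' hd ht hit]
  exact Nat.zero_le _

end Pool.Agent.Results.MP_48b749_nt.ConstantThreeTorsionPencils
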