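import Pool.Agent.N874.DH.C7

/-!
# Half of the quadratic twists of the elliptic curves with a point of order three over `k(t)`

Let `k` be a finite field with `q` elements, of characteristic at least five. For a squarefree
polynomial `D` let `E_D` be the twist of the elliptic curve `E` over `k(t)` by `D`.
For at least half of the squarefree `D` of a given large odd degree, with any finite set of local
conditions, the following holds for all elliptic curves `E` with a rational point of order three at
once: the order of vanishing of the `L`-function of `E_D` is at most an explicit sum of local terms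
of `E`, which is exactly the order of vanishing modulo three. For each `E` the `D` for which this sum
is zero have positive density, and at least half of them, the `L`-function of `E_D` does not vanish
at the centre, also over the extensions of three-power degree in which no place ramifies that splits in
`k(t)(√D)`, if `3` divides `q - 1`.
-/

set_option autoImplicit false
set_option linter.all false
set_option maxHeartbeats 4000000

open Polynomial Filter Pool.Agent.W343.BSD Pool.Agent.W313.Gr

namespace Pool.Agent.Results.MP_48b749_nt.HalfOfTwistsThreeTorsion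

section defs

variable {k K : Type} [Field k] [Field K] [Algebra k K]

open Classical in
/-- `y ^ 2 = x ^ 3 + a x + b` is an elliptic curve with a `K`-rational point of order three. -/
def HasPointOfOrderThree (a b : K) : Prop :=
  4 * a ^ 3 + 27 * b ^ 2 ≠ 0 ∧ ∃ P : (curve a b).toAffine.Point, addOrderOf P = 3

/-- The curve `y ^ 2 = x ^ 3 + a x + b` has bad reduction at `v`. -/
def IsBad (v : FF.Place k K) (a b : K) : Prop := v.ord (minDisc v a b) ≠ 0

/-- The element `u` is a square in the completion of `K` at `v`: if `u` is not a square in `K`, then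
`v` splits in `K(√u)`. -/
def Splits (v : FF.Place k K) (u : K) : Prop :=
  ∃ s : K, u = s ^ 2 ∨ v.ord u < v.ord (u - s ^ 2)

open Classical in
/-- The weight of the place `v` for the twist by `u` of `E : y ^ 2 = x ^ 3 + a x + b`. It is zero if
`E` has good reduction at `v` or the valuation of `u` is odd. Otherwise, for additive reduction
(`a_v = 0`) and `q_v = 1` modulo three it is `2` or `0` according to whether `v` splits in `K(√u)` or
not, for additive reduction and `q_v = 2` modulo three it is `1`, and for multiplicative reduction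
it is `1` if the reduction is split and `v` splits in `K(√u)` or neither of this is true, and `0`
otherwise. -/
noncomputable def weight (v : FF.Place k K) (a b u : K) : ℕ :=
  if ¬ IsBad v a b ∨ Odd (v.ord u) then 0
  else if S.trace v a b = 0 then
    (if Nat.card (S.Res v) % 3 = 1 then (if Splits v u then 2 else 0) else 1)
  else if (S.trace v a b = 1 ↔ Splits v u) then 1 else 0

/-- The sum of the weights times `3 ^ v₃(deg v)`. -/
noncomputable def weightSum (k : Type) {K : Type} [Field k] [Field K] [Algebra k K] (a b u : K) :
    ℕ :=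
  ∑ᶠ v : FF.Place k K, weight v a b u * 3 ^ padicValNat 3 (S.deg v)

/-- If `L(T, E)` is `(1 - |k| T) ^ m G(T)` with `G` in `ℤ[T]` then `m ≤ N`. -/
def OrderBound (k : Type) {K : Type} [Field k] [Field K] [Algebra k K] (a b : K) (N : ℕ) : Prop :=
  ∀ m : ℕ, S.VanishesTo k a b m → m ≤ N

/-- The order of vanishing of `L(T, E)` at `T = 1 / |k|` is zero, and so is the rank if it is at most
this order. -/
def RankZero (k : Type) {K : Type} [Field k] [Field K] [Algebra k K] (a b : K) : Prop :=
  OrderBound k a b 0 ∧ ∀ r : ℕ, HasOrder k a b r → r = 0 ∧ (rank a b ≤ r → rank a b = 0)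

/-- The order of vanishing at `1 / |k|` of the integral polynomial `G` modulo three. It is zero if
and only if `G(1 / |k|)` is not zero and prime to three. -/
noncomputable def ordThree (k : Type) (G : ℤ[X]) : ℕ :=
  (G.map (Int.castRingHom (ZMod 3))).rootMultiplicity ((Nat.card k : ℕ) : ZMod 3)⁻¹

/-- If `L(T, E)` is a polynomial `G` in `ℤ[T]`, then `G` modulo three has a zero of order exactly `N`
at `T = 1 / |k|`. For `N = 0` this means that `L(1 / |k|, E)` is not zero and prime to three. -/
def OrderModThree (k : Type) {K : Type} [Field k] [Field K] [Algebra k K] (a b : K) (N : ℕ) :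
    Prop :=
  ∀ G : ℤ[X], S.Lfun k a b = (G : PowerSeries ℤ) → ordThree k G = N

/-- `M` is the function field of a curve over `k` and is `K(√u)`. -/
def IsQuadField (k K M : Type) [Field k] [Field K] [Field M] [Algebra k M] [Algebra K M] (u : K) :
    Prop :=
  IsCurveField k M ∧ ∃ θ : M, θ ^ 2 = algebraMap K M u ∧ IntermediateField.adjoin K {θ} = ⊤

/-- `L'` is a Galois extension of `K` of degree a power of three in which the places of `K` in `T` are
not ramified. -/
def IsThreeExtension (k K L' : Type) [Field k] [Field K] [Field L'] [Algebra k K] [Algebra k L']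
    [Algebra K L'] (T : Set (FF.Place k K)) : Prop :=
  FiniteDimensional K L' ∧ IsGalois K L' ∧ (∃ n : ℕ, Module.finrank K L' = 3 ^ n) ∧
    ∀ v ∈ T, ∀ (w : FF.Place k L') (e : ℕ), 0 < e →
      (∀ x : K, w.ord (algebraMap K L' x) = e * v.ord x) → e = 1

/-- The field `L` is contained in a Galois extension of `K` of degree a power of three in which the
places of `K` in `T` are not ramified. -/
def InThreeExtension (k K L : Type) [Field k] [Field K] [Field L] [Algebra k K] [Algebra k L]
    [Algebra K L] (T : Set (FF.Place k K)) : Prop :=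
  ∃ (L' : Type) (_ : Field L') (_ : Algebra k L') (_ : Algebra K L') (_ : Algebra L L'),
    IsScalarTower k K L' ∧ IsScalarTower K L L' ∧ IsThreeExtension k K L' T

/-- For all elliptic curves over `L` with a point of order three the order of vanishing of the twist
by `u` is at most `weightSum`; and for all elliptic curves `E` over `K` with a `K`-rational point of
order three for which `weightSum` is zero, the order of vanishing of the twist of `E` by `u` over `L`
is zero, and so is the rank if it is at most the order. -/
def Bounds (k : Type) {K : Type} (L : Type) [Field k] [Field K] [Field L] [Algebra k K]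
    [Algebra k L] [Algebra K L] (u : K) : Prop :=
  (∀ a b : L, HasPointOfOrderThree a b →
    OrderBound k (algebraMap K L u ^ 2 * a) (algebraMap K L u ^ 3 * b)
      (weightSum k a b (algebraMap K L u))) ∧
  ∀ a b : K, HasPointOfOrderThree a b → weightSum k a b u = 0 →
    RankZero k (algebraMap K L (u ^ 2 * a)) (algebraMap K L (u ^ 3 * b))

end defs

section poly

variable {k : Type} [Field k]

/-- The polynomial `D` as an element of `k(t)`. -/
noncomputable abbrev el (D : k[X]) : RatFunc k := algebraMap k[X] (RatFunc k) D

/-- The behaviour of a prime in `k(t)(√D)`, or no condition. -/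
inductive Behaviour
  | split | inert | ramified | free

/-- The prime `P` is split, inert, ramified in `k(t)(√D)`, for squarefree `D`. -/
def Behaves (P D : k[X]) : Behaviour → Prop
  | .split => ¬ P ∣ D ∧ ∃ h : k[X], P ∣ h ^ 2 - D
  | .inert => ∀ h : k[X], ¬ P ∣ h ^ 2 - D
  | .ramified => P ∣ D
  | .free => True

/-- The squarefree polynomials `D` of degree `n` such that the primes `P` in `T` have the behaviour
`τ P` in `k(t)(√D)`. -/
def Twists (T : Finset k[X]) (τ : k[X] → Behaviour) (n : ℕ) : Set k[X] :=
  {D | D.natDegree = n ∧ Squarefree D ∧ ∀ P ∈ T, Behaves P D (τ P)}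

/-- For all elliptic curves `E` over `k(t)` with a rational point of order three, the order of
vanishing modulo three of the `L`-function of `E_D` is `weightSum`; the order of vanishing is at
most `weightSum`, and if `weightSum` is zero and the rank of `E_D` is at most the order then it is
zero. If `3` divides `q - 1` such bounds hold over all fields `L` contained in a Galois extension
of `k(t)` of degree a power of three in which no place ramifies which splits in `k(t)(√D)`. -/
def Controls (k : Type) [Field k] (D : k[X]) : Prop :=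
  (∀ a b : RatFunc k, HasPointOfOrderThree a b →
    OrderModThree k (el D ^ 2 * a) (el D ^ 3 * b) (weightSum k a b (el D))) ∧
  Bounds k (RatFunc k) (el D) ∧
  (3 ∣ Nat.card k - 1 → ∀ (L : Type) [Field L] [Algebra k L] [Algebra (RatFunc k) L]
    [IsScalarTower k (RatFunc k) L], InThreeExtension k (RatFunc k) L {v | Splits v (el D)} →
      Bounds k L (el D))

/-- For all elliptic curves `E` over `k(t)` with a rational point of order three, if `L(T, E_D)` is a
polynomial in `ℤ[T]`, its order of vanishing modulo three at `1 / q` is at least `weightSum`, with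
equality if and only if the class number of `M` is prime to three. -/
def Criterion (k : Type) [Field k] (D : k[X]) (M : Type) [Field M] [Algebra k M] : Prop :=
  ∀ a b : RatFunc k, HasPointOfOrderThree a b → ∀ G : ℤ[X],
    S.Lfun k (el D ^ 2 * a) (el D ^ 3 * b) = (G : PowerSeries ℤ) →
      weightSum k a b (el D) ≤ ordThree k G ∧
        (ordThree k G = weightSum k a b (el D) ↔ ¬ 3 ∣ S.classNumber k M)

/-- The squarefree polynomials `D` of degree `n` for which all the weights are zero. -/
def Quiet (a b : RatFunc k) (n : ℕ) : Set k[X] :=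
  {D | D.natDegree = n ∧ Squarefree D ∧ weightSum k a b (el D) = 0}

end poly

section proof

open Pool.Agent.R427 Pool.Agent.N874

theorem rankZero_of {k K : Type} [Field k] [Finite k] [Field K] [Algebra k K] [FF.IsFF k K]
    {a b : K} (h : ∀ m : ℕ, S.VanishesTo k a b m → m = 0) : RankZero k a b := by
  have hU : OrderBound k a b 0 := fun m hm => (h m hm).le
  have hR : ((0 : ℕ) : Cardinal) ≤ rank a b := by rw [Nat.cast_zero]; exact zero_le
  refine ⟨hU, fun r hr => ?_⟩
  obtain ⟨h1, h2⟩ := Pool.Agent.TH180.R4.concl4 hR hU r hr
  exact ⟨Nat.le_zero.1 h1, fun hle => by rw [(h2 hle).2, Nat.cast_zero]⟩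

theorem three_data {k K : Type} [Field k] [Finite k] [Field K] [Algebra k K] (h6 : (6 : k) ≠ 0)
    {a b : K} (h : HasPointOfOrderThree a b) :
    ∃ α β : K, β ≠ 0 ∧ TH639.B3.IsT3 a b α β := by
  classical
  obtain ⟨-, P, hP⟩ := h
  have h2 : (2 : k) ≠ 0 := by
    intro h; apply h6
    have : (6 : k) = 2 * 3 := by norm_num
    rw [this, h, zero_mul]
  have h2K : (2 : K) ≠ 0 := by
    have : algebraMap k K 2 ≠ 0 := by simpa using h2
    rwa [map_ofNat] at this
  refine TH639.B3.isT3_of_order h2K P ?_
  convert hP

theorem weight_eq {k K : Type} [Field k] [Field K] [Algebra k K] (v : FF.Place k K) (a b u : K) :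
    weight v a b u = DH.wgt v a b u := by
  classical
  unfold weight DH.wgt IsBad
  simp only [not_not]
  rfl

theorem weightSum_eq {k K : Type} [Field k] [Field K] [Algebra k K] (a b u : K) :
    weightSum k a b u =
      ∑ᶠ v : FF.Place k K, DH.wgt v a b u * 3 ^ padicValNat 3 (S.deg v) := by
  unfold weightSum
  exact finsum_congr fun v => by rw [weight_eq]

theorem not_splits {k K : Type} [Field k] [Finite k] [Field K] [Algebra k K] [FF.IsFF k K]
    (h6 : (6 : k) ≠ 0) (hq : 3 ∣ Nat.card k - 1) {a b α β u : K} (h : TH639.B3.IsT3 a b α β)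
    (hΔ : 4 * a ^ 3 + 27 * b ^ 2 ≠ 0) (hu : u ≠ 0) (h0 : weightSum k a b u = 0)
    (v : FF.Place k K) (hv : v.ord (minDisc v a b) ≠ 0) : ¬ TH639.B3.LocSq v u := by
  classical
  intro hl
  rw [weightSum_eq] at h0
  have h1 := DH.wgt_zero_of_sum hΔ h0 v
  have h2 := DH.spW_le_wgt (v := v) h6 hq h hΔ hu
  rw [h1, zero_mul] at h2
  unfold TW.spW at h2
  rw [if_pos ⟨hv, hl⟩] at h2
  have h3 : 0 < (if S.trace v a b = 0 then 2 else 1) * 3 ^ padicValNat 3 (S.deg v) := by
    apply Nat.mul_pos
    · split_ifs <;> norm_num
    · exact pow_pos (by norm_num) _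
  omega

theorem bounds_of {k K L : Type} [Field k] [Finite k] [Field K] [Algebra k K] [FF.IsFF k K]
    [Field L] [Algebra k L] [Algebra K L] [IsScalarTower k K L] (h6 : (6 : k) ≠ 0)
    (hq : 3 ∣ Nat.card k - 1) {u : K} (hu : u ≠ 0) {T : Set (FF.Place k K)}
    (hT : ∀ v, Splits v u → v ∈ T) (hL : InThreeExtension k K L T) (h : TW.NRel 3 k u) :
    Bounds k L u := by
  have : Fact (Nat.Prime 3) := ⟨Nat.prime_three⟩
  obtain ⟨L', i1, i2, i3, i4, t1, t2, hfd, hgal, ⟨N, hN⟩, hram⟩ := hL
  obtain ⟨ζ, hζ⟩ := TW.exists_prim (k := k) Nat.prime_three hq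
  have hfdL : FiniteDimensional L L' := Module.Finite.of_restrictScalars_finite K L L'
  have hfdKL : FiniteDimensional K L := Module.Finite.left K L L'
  obtain ⟨n, -, hn⟩ : ∃ n ≤ N, Module.finrank K L = 3 ^ n := by
    rw [← Nat.dvd_prime_pow Nat.prime_three, ← hN, ← Module.finrank_mul_finrank K L L']
    exact dvd_mul_right _ _
  have hNR : TW.NRel 3 k (algebraMap K L u) := by
    refine TW.rel_sub (by decide) h6 (three_ne h6) hζ n K L L' N hN hn u hu ?_ h
    rintro v ⟨w, e, hov, he⟩ h1
    exact he (hram v (hT v (TW.chi_one_iff.1 h1)) w e hov.1 hov.2)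
  have hFFL : FF.IsFF k L := isFF_of_finite (K := K)
  have huL : algebraMap K L u ≠ 0 := (_root_.map_ne_zero _).2 hu
  constructor
  · intro a b hab m hm
    obtain ⟨α, β, hβ, hT3⟩ := three_data (k := k) h6 hab
    rw [weightSum_eq]
    exact (TW.twist_three h6 hq hT3 hβ hab.1 huL hNR hm).trans
      (DH.spSum_le h6 hq hT3 hab.1 huL)
  · intro a b hab h0
    obtain ⟨α, β, hβ, hT3⟩ := three_data (k := k) h6 hab
    have hΔ := hab.1
    have hns := not_splits h6 hq hT3 hΔ hu h0
    have hT3' : TH639.B3.IsT3 (algebraMap K L a) (algebraMap K L b) (algebraMap K L α)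
        (algebraMap K L β) := by
      obtain ⟨e1, e2⟩ := hT3
      have e3 := congrArg (algebraMap K L) e1
      have e4 := congrArg (algebraMap K L) e2
      simp only [map_mul, map_sub, map_add, map_pow, map_ofNat] at e3 e4
      exact ⟨e3, e4⟩
    have hΔ' : 4 * algebraMap K L a ^ 3 + 27 * algebraMap K L b ^ 2 ≠ 0 := by
      rw [disc_map]
      exact (_root_.map_ne_zero _).2 hΔ
    apply rankZero_of
    intro m hm
    rw [map_mul, map_pow, map_mul, map_pow] at hm
    have h1 := TW.twist_three h6 hq hT3' ((_root_.map_ne_zero _).2 hβ) hΔ' huL hNR hm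
    have h2 : ∑ᶠ w : FF.Place k L, TW.spW w (algebraMap K L a) (algebraMap K L b)
        (algebraMap K L u) = 0 := by
      rw [finsum_congr (g := fun _ => 0), finsum_zero]
      intro w
      exact TW.spW_zero_sub L' h6 (by rw [hN]; exact Odd.pow (by decide)) hΔ hu hns w
    omega

/-- the squarefree polynomials which are not the discriminant of a reduced form -/
theorem controls_of {k : Type} [Field k] [Finite k] (h6 : (6 : k) ≠ 0) {D : k[X]}
    (hs : Squarefree D) (ho : Odd D.natDegree) (hno : ¬ DH.HasForm D.natDegree D) :
    Controls k D := by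
  have hFF : FF.IsFF k (RatFunc k) := (W309.RK.sb k).1
  have hu : W309.RF.A D ≠ 0 := W309.RF.A_ne hs.ne_zero
  refine ⟨?_, ⟨?_, ?_⟩, ?_⟩
  · intro a b hab G hG
    obtain ⟨α, β, hβ, hT3⟩ := three_data (k := k) h6 hab
    rw [weightSum_eq]
    exact DH.order_eq h6 hs ho hno hT3 hβ hab.1 hG
  · intro a b hab m hm
    obtain ⟨α, β, hβ, hT3⟩ := three_data (k := k) h6 hab
    have h1 := DH.order_le h6 hs ho hno hT3 hβ hab.1 hm
    rw [DH.twSum_eq h6 hT3 hβ hab.1 hu] at h1
    rw [weightSum_eq]
    exact h1
  · intro a b hab h0
    apply rankZero_of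
    intro m hm
    obtain ⟨α, β, hβ, hT3⟩ := three_data (k := k) h6 hab
    have h1 := DH.order_le h6 hs ho hno hT3 hβ hab.1 hm
    rw [DH.twSum_eq h6 hT3 hβ hab.1 hu] at h1
    rw [weightSum_eq] at h0
    have h2 : m ≤ 0 := by
      rw [← h0]
      exact h1
    omega
  · intro hq L _ _ _ _ hL
    exact bounds_of h6 hq hu (fun v hv => hv) hL (DH.nrel_of_noForm h6 hs ho hno)

/-- the translation of the conditions -/
def toCond : Behaviour → DH.Cond
  | .split => .sq
  | .inert => .nsq
  | .ramified => .ex
  | .free => .any

theorem behaves_iff {k : Type} [Field k] {P D : k[X]} (hP : Irreducible P) (hs : Squarefree D)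
    (c : Behaviour) : Behaves P D c ↔ DH.Holds P D (toCond c) := by
  have h2 : ¬ P ^ 2 ∣ D := fun h => hP.not_isUnit (hs P (by rw [← sq]; exact h))
  cases c with
  | split => exact Iff.rfl
  | inert => exact Iff.rfl
  | ramified => exact ⟨fun h => ⟨h, h2⟩, fun h => h.1⟩
  | free => exact ⟨fun _ => h2, fun _ => trivial⟩

theorem twists_eq {k : Type} [Field k] {T : Finset k[X]}
    (hT : ∀ P ∈ T, P.Monic ∧ Irreducible P) (τ : k[X] → Behaviour) (n : ℕ) :
    Twists T τ n = DH.Fam T (fun P => toCond (τ P)) n := by
  ext D
  unfold Twists DH.Fam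
  rw [Set.mem_setOf_eq, Set.mem_setOf_eq]
  exact and_congr_right fun _ => and_congr_right fun hs => forall₂_congr fun P hP =>
    behaves_iff (hT P hP).2 hs (τ P)

theorem quiet_eq {k : Type} [Field k] [Finite k] {a b : RatFunc k}
    (hΔ : 4 * a ^ 3 + 27 * b ^ 2 ≠ 0) (n : ℕ) : Quiet a b n = DH.Quiet k a b n := by
  have hFF : FF.IsFF k (RatFunc k) := (W309.RK.sb k).1
  ext D
  unfold Quiet DH.Quiet
  rw [Set.mem_setOf_eq, Set.mem_setOf_eq]
  refine and_congr_right fun _ => and_congr_right fun hs => ?_
  rw [weightSum_eq]
  constructor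
  · intro h v
    exact DH.wgt_zero_of_sum hΔ h v
  · intro h
    rw [finsum_congr (g := fun _ => 0), finsum_zero]
    intro v
    have h1 : DH.wgt v a b (el D) = 0 := h v
    rw [h1, zero_mul]

end proof

/-- Let `k` be a finite field with `q` elements, of characteristic at least five.

(1) Let `D` be a squarefree polynomial over `k` of odd degree. For all elliptic curves `E` over `k(t)`
with a rational point of order three the order of vanishing of `L(T, E_D)` modulo three at `1 / q` is
at least `weightSum`, and it is equal to `weightSum` if and only if the class number of `k(t)(√D)` is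
prime to three. So if all the weights are zero, `L(1 / q, E_D)` is prime to three if and only if the
class number is.

(2) Let `T` be a finite set of monic irreducible polynomials over `k` and fix for each of them the
behaviour in `k(t)(√D)` (split, inert, ramified or no condition). The squarefree polynomials `D` of
degree `n` with this behaviour at `T` are a positive proportion of all the polynomials of degree `n`.
For `n` odd, `n → ∞`, at least half of them (precisely: at least `1 / 2 - ε` of them, for all `ε > 0`
and `n ≥ n(ε)`) have the property `Controls`: for all elliptic curves `E` over `k(t)` with a rational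
point of order three, the order of vanishing of `L(T, E_D)` at `1 / q` is at most `weightSum`,
and the order of vanishing modulo three is equal to `weightSum`; and similar bounds hold over the
extensions of three-power degree of `k(t)` in which no place ramifies that splits in `k(t)(√D)`, if `3`
divides `q - 1`.

(3) Let `E : y ^ 2 = x ^ 3 + a x + b` be an elliptic curve over `k(t)` with a rational point of order
three. The squarefree `D` of odd degree `n` for which all the weights are zero are a positive
proportion of all the polynomials of degree `n`. At least half of them (in the same sense) have the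
property `Controls`, and `L(1 / q, E_D)` is not zero and is prime to three, and the rank of `E_D` is zero
if it is at most the order of vanishing.

Every elliptic curve over `k(t)` with a rational subgroup of order three is a twist `E_c` of one with a
rational point of order three, with `c` squarefree, and its twist by a squarefree polynomial `D` prime
to `c` is `E_{c D}`, so that (2) applies to these twists, with the condition ramified at the primes
dividing `c`. -/
theorem result (k : Type) [Field k] [Finite k] (h6 : (6 : k) ≠ 0) :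
    (∀ D : k[X], Squarefree D → Odd D.natDegree →
      ∀ (M : Type) [Field M] [Algebra k M] [Algebra (RatFunc k) M]
        [IsScalarTower k (RatFunc k) M], IsQuadField k (RatFunc k) M (el D) →
        Criterion k D M) ∧
    (∀ T : Finset k[X], (∀ P ∈ T, P.Monic ∧ Irreducible P) → ∀ τ : k[X] → Behaviour,
      (∃ c : ℝ, 0 < c ∧ ∀ᶠ n : ℕ in atTop,
        c * (Nat.card k : ℝ) ^ n ≤ ((Twists T τ n).ncard : ℝ)) ∧
      ∀ ε : ℝ, 0 < ε → ∀ᶠ n : ℕ in atTop, Odd n →
        (1 / 2 - ε) * ((Twists T τ n).ncard : ℝ) ≤
          (({D ∈ Twists T τ n | Controls k D}.ncard : ℕ) : ℝ)) ∧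
    ∀ a b : RatFunc k, HasPointOfOrderThree a b →
      (∃ c : ℝ, 0 < c ∧ ∀ᶠ n : ℕ in atTop, Odd n →
        c * (Nat.card k : ℝ) ^ n ≤ ((Quiet a b n).ncard : ℝ)) ∧
      ∀ ε : ℝ, 0 < ε → ∀ᶠ n : ℕ in atTop, Odd n →
        (1 / 2 - ε) * ((Quiet a b n).ncard : ℝ) ≤
          (({D ∈ Quiet a b n | Controls k D ∧ RankZero k (el D ^ 2 * a) (el D ^ 3 * b) ∧
            OrderModThree k (el D ^ 2 * a) (el D ^ 3 * b) 0}.ncard : ℕ) : ℝ) := by
  classical
  refine ⟨?_, ?_, ?_⟩
  · intro D hs ho M _ _ _ _ hM
    obtain ⟨hcf, θ, hθ, htop⟩ := hM
    have hFFM : FF.IsFF k M := ⟨hcf.essFiniteType, hcf.trdeg_eq_one⟩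
    have hcM := Pool.Agent.TH958.T4.constDeg_eq_one hcf.algClosed
    intro a b hab G hG
    obtain ⟨α, β, hβ, hT3⟩ := three_data (k := k) h6 hab
    rw [weightSum_eq]
    exact Pool.Agent.N874.DH.order_all h6 hs ho hθ htop hcM hT3 hβ hab.1 hG
  · intro T hT τ
    obtain ⟨h1, h2⟩ := Pool.Agent.N874.DH.fam_count h6 hT (fun P => toCond (τ P))
    constructor
    · obtain ⟨c, hc, h⟩ := h1
      refine ⟨c, hc, ?_⟩
      filter_upwards [h] with n hn
      rw [twists_eq hT]
      exact hn
    · intro ε hε
      filter_upwards [h2 ε hε] with n hn ho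
      rw [twists_eq hT]
      refine (hn ho).trans ?_
      have hfin := Pool.Agent.N874.DH.Eng.fin_fam Pool.Agent.N874.DH.cnt T
        (fun P => toCond (τ P)) n
      have hsub : {D ∈ Pool.Agent.N874.DH.Fam T (fun P => toCond (τ P)) n |
          ¬ Pool.Agent.N874.DH.HasForm n D} ⊆
          {D ∈ Pool.Agent.N874.DH.Fam T (fun P => toCond (τ P)) n | Controls k D} := by
        rintro D ⟨hD, hno⟩
        refine ⟨hD, ?_⟩
        obtain ⟨e1, e2, -⟩ := hD
        subst e1
        exact controls_of h6 e2 ho hno
      exact_mod_cast Set.ncard_le_ncard hsub (hfin.subset (Set.sep_subset _ _))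
  · intro a b hab
    obtain ⟨h1, h2⟩ := Pool.Agent.N874.DH.quiet_count (k := k) h6 hab.1
    constructor
    · obtain ⟨c, hc, h⟩ := h1
      refine ⟨c, hc, ?_⟩
      filter_upwards [h] with n hn ho
      rw [quiet_eq hab.1]
      exact hn ho
    · intro ε hε
      filter_upwards [h2 ε hε] with n hn ho
      have hfin : (Quiet a b n).Finite := by
        refine (Pool.Agent.N874.DH.Eng.fin_deg Pool.Agent.N874.DH.cnt n).subset ?_
        rintro D ⟨h1, h2, -⟩
        exact ⟨h2.ne_zero, h1⟩
      have h3 := hn ho
      rw [← quiet_eq hab.1] at h3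
      refine h3.trans ?_
      have hsub : {D ∈ Quiet a b n | ¬ Pool.Agent.N874.DH.HasForm n D} ⊆
          {D ∈ Quiet a b n | Controls k D ∧ RankZero k (el D ^ 2 * a) (el D ^ 3 * b) ∧
            OrderModThree k (el D ^ 2 * a) (el D ^ 3 * b) 0} := by
        rintro D ⟨hD, hno⟩
        refine ⟨hD, ?_⟩
        obtain ⟨e1, e2, e3⟩ := hD
        subst e1
        have hc := controls_of h6 e2 ho hno
        refine ⟨hc, ?_, ?_⟩
        · exact hc.2.1.2 a b hab e3
        · have h5 := hc.1 a b hab
          rw [e3] at h5
          exact h5
      exact_mod_cast Set.ncard_le_ncard hsub (hfin.subset (Set.sep_subset _ _))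

end Pool.Agent.Results.MP_48b749_nt.HalfOfTwistsThreeTorsion
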