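import Pool.Agent.N181.P9.Main
import Pool.Agent.N181.P9.Tower

/-!
# Coverings of rational elliptic surfaces with a section of order two

`k` is a field of characteristic different from `2`, for example a finite field, and
`E₀ : y² = x (x² + a x + b)` is an elliptic curve over `k(s)` with `deg a ≤ 2`, `deg b ≤ 4`: a rational
elliptic surface with a section of order two (every such surface has an equation of this form), such
that `b` and `a² - 4 b` are not constants times squares (`RatBase2`): `(0, 0)` is the only point of order
two on `E₀` and on the isogenous curve over `k'(s)`, `k'` the separable closure. `E` is the pullback of `E₀` by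
a map `s = q(t) / r(t)` of degree `n` prime to `6` with exactly one closed point above each place of bad
reduction of `E₀` (`Cover2`). Then the Tate conjecture for divisors at the prime `2` holds for `E` over
`L(t)`, for all finite extensions `L` of `k` of degree prime to `n`. The geometric genus of these surfaces is
not bounded. If `k` is finite, this means that the 2-primary part of the Tate-Shafarevich group of `E` over `L(t)`
is finite, so that (Artin-Tate, Milne) the rank of `E(L(t))` is the order of vanishing of the L-function.

The proof: over a finite extension `M` of `L`, of degree prime to `n`, the places of bad reduction are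
rational and the first descents on `E₀` and on the isogenous curve are complete: for a decomposition
`b = u v`, `u`, `v` of degree at most two without multiple roots on the projective line, there is a point
with `x = c u` if `c² u + c a + v` has discriminant zero, a polynomial of degree four in `c`. The classes
allowed by the local conditions on `E` which are fixed by the Galois group of `M` come from `E₀`, as there is one
point above each bad place and `n` is odd. So all the Tate classes over `M(t)` are algebraic, and this
descends to `L(t)`.
-/

set_option autoImplicit false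
set_option linter.all false

open Polynomial IsDedekindDomain WeierstrassCurve WeierstrassCurve.Affine
open scoped Classical

namespace Pool.Agent.Results.MP_48b749_nt.OrderTwoCoverings

open Pool.Agent.N181.P9
open Pool.Agent.N181.P8 (TateQ)
open Pool.Agent.TH115.GD (IsTower)

/-- The conclusion: the Tate conjecture at `2` over all the finite extensions `L` of `k` of degree prime
to `n`. -/
def Holds {k : Type} [Field k] (q r : k[X]) (n : ℕ) (a b : k[X]) : Prop :=
  ∀ (L L' K F : Type) [Field L] [Field L'] [Field K] [Field F]
    [Algebra k L] [FiniteDimensional k L] [Algebra L L']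
    [Algebra L[X] K] [Algebra L'[X] F] [IsFractionRing L'[X] F] [Algebra K F],
    IsTower L L' K F → Nat.Coprime n (Module.finrank k L) →
    TateQ (F := F) 2 L' (surf2 K (q.map (algebraMap k L)) (r.map (algebraMap k L))
      (a.map (algebraMap k L)) (b.map (algebraMap k L)))

theorem result :
    -- the coverings
    (∀ (k : Type) [Field k] (a b q r : k[X]) (n : ℕ), RatBase2 a b → Cover2 q r n a b →
      Holds q r n a b) ∧
    -- the coverings `s = t ^ n + c`
    (∀ (k : Type) [Field k] (a b : k[X]), RatBase2 a b → (b * (a ^ 2 - 4 * b)).Splits →
      ∀ (n : ℕ) (c : k), Nat.Coprime n 6 → (n : k) ≠ 0 →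
        (∀ ξ, (b * (a ^ 2 - 4 * b)).IsRoot ξ → ξ = c ∨
          ∀ ℓ : ℕ, ℓ.Prime → ℓ ∣ n → ∀ y : k, y ^ ℓ ≠ ξ - c) →
        Cover2 (X ^ n + C c) 1 n a b) ∧
    -- infinite towers over finite fields
    (∀ (k : Type) [Field k] [Finite k] (a b : k[X]), RatBase2 a b →
      (b * (a ^ 2 - 4 * b)).Splits → ∀ ℓ : ℕ, ℓ.Prime → 11 ≤ ℓ → ℓ ∣ Nat.card k - 1 →
        30 < Nat.card k → ∃ c : k, ∀ j : ℕ, Cover2 (X ^ ℓ ^ j + C c) 1 (ℓ ^ j) a b) := by
  refine ⟨?_, ?_, ?_⟩
  · intro k _ a b q r n hB hC L L' K F _ _ _ _ _ _ _ _ _ _ _ hT hn
    exact main9 hT hB hC hn
  · intro k _ a b hB hs n c h6 hk hc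
    exact cover_pow2 (mul_ne_zero hB.hb0 hB.hd0) hs h6 hk hc
  · intro k _ _ a b hB hs ℓ hℓ h7 hd hq
    have h0 := mul_ne_zero hB.hb0 hB.hd0
    obtain ⟨c, hc⟩ := exists_tower2 h0 (by
      refine natDegree_mul_le.trans ?_
      have h1 := hB.db
      have h2 := hB.dd
      omega) h7 hd hq
    refine ⟨c, fun j => cover_pow2 h0 hs ?_ ?_ fun ξ hξ => Or.inr fun p hp hpd y => ?_⟩
    · apply Nat.Coprime.pow_left
      rw [Nat.Prime.coprime_iff_not_dvd hℓ]
      intro h
      have := Nat.le_of_dvd (by norm_num) h
      omega
    · rw [Nat.cast_pow]
      apply pow_ne_zero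
      intro h
      have h1 : ((Nat.card k : ℕ) : k) = 0 := by
        letI := Fintype.ofFinite k
        rw [Nat.card_eq_fintype_card]
        exact FiniteField.cast_card_eq_zero k
      obtain ⟨m, hm⟩ := hd
      have h2 : Nat.card k = ℓ * m + 1 := by omega
      rw [h2, Nat.cast_add, Nat.cast_mul, h, zero_mul, zero_add, Nat.cast_one] at h1
      exact one_ne_zero h1
    · have : p = ℓ := (Nat.prime_dvd_prime_iff_eq hp hℓ).1 (hp.dvd_of_dvd_pow hpd)
      rw [this]
      exact hc ξ hξ y

end Pool.Agent.Results.MP_48b749_nt.OrderTwoCoverings
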