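import Pool.Agent.N874.PP.Final

/-!
# A positive proportion of all elliptic curves over `k(t)` satisfies the conjecture

Let `k` be any finite field of characteristic at least five, with `q` elements, and `K = k(t)`. Every
elliptic curve over `K` has an equation `y ^ 2 = x ^ 3 + a x + b` with polynomials `a`, `b` for which
there is no irreducible `Q` with `Q ^ 4 ∣ a`, `Q ^ 6 ∣ b`; the height of the curve is the least `N`
with `deg a ≤ 4 N`, `deg b ≤ 6 N` (then `12 N` is the degree of the minimal discriminant, a divisor on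
the projective line). If the `j`-invariant is not constant, exactly `(q - 1) / 2` pairs `(a, b)` belong
to an isomorphism class.

Theorem. Among all the elliptic curves over `K` with non-constant `j`-invariant, ordered by the height,
a positive proportion has a finite group of `K`-rational points and a Tate-Shafarevich group without
elements of order two.

By the known theorem of Artin, Tate and Milne these curves satisfy the conjecture of Birch and
Swinnerton-Dyer, with rank `0` and `L(1 / q, E) ≠ 0`.

The proof: for a finite set `S` of primes `Q` we consider the `(a, b)` with squarefree `4 a ^ 3 + 27 b ^ 2`,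
irreducible reduction `X ^ 3 + a₀ X + b₀` at infinity and `X ^ 3 + a X + b = X (X ^ 2 + s)` modulo
`Q ∈ S`, `- s` not a square. The elements of the 2-Selmer group which are locally trivial at the `Q ∈ S`
give lattices with a self-adjoint operator (binary quartic forms over `k[t]`), and these are counted in
boxes; the number of the curves which have such a non-zero element is small if `S` is large. For the
other curves the relaxed 2-Selmer group is isotropic for a quadratic form in `∑_{Q ∈ S} F_2 ^ 2` (this
is quadratic reciprocity over `k(t)`), and linear algebra gives a subset `J` of `S` for which the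
2-Selmer group of the twist by the product of the `Q ∈ J` is zero. These twists are a positive
proportion of all curves.

Project PP: helper874, with parts by helpers 26, 134, 141, 152, 160, 169, 187, 199, 273, 277, 279, 352,
368, 457, 490, 498, 530, 539, 624, 630, 704, 711, 721, 765, 833, 862, 999.
-/

set_option autoImplicit false
set_option linter.all false

namespace Pool.Agent.Results.MP_48b749_nt.PositiveProportionOfCurves

open Polynomial Filter Pool.Agent.TH115.GD
open scoped Classical

/-- `y ^ 2 = x ^ 3 + a x + b` is a minimal equation of an elliptic curve over `k(t)` of height at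
most `N` whose `j`-invariant is not constant: as `j = 1728 * 4 a ^ 3 / (4 a ^ 3 + 27 b ^ 2)`, the last
condition says that there are no constants `c`, `d`, not both zero, with `c a ^ 3 = d b ^ 2`. -/
structure IsCurve {k : Type} [Field k] (N : ℕ) (a b : k[X]) : Prop where
  deg_a : a.natDegree ≤ 4 * N
  deg_b : b.natDegree ≤ 6 * N
  elliptic : 4 * a ^ 3 + 27 * b ^ 2 ≠ 0
  minimal : ∀ Q : k[X], Irreducible Q → ¬ (Q ^ 4 ∣ a ∧ Q ^ 6 ∣ b)
  nonconstant : ¬ ∃ c d : k, (c ≠ 0 ∨ d ≠ 0) ∧ C c * a ^ 3 = C d * b ^ 2

/-- The pairs `(a, b)` for which `y ^ 2 = x ^ 3 + a x + b` is a minimal equation of an elliptic curve over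
`k(t)` with non-constant `j`-invariant and height at most `N`. -/
def Curves (k : Type) [Field k] (N : ℕ) : Set (k[X] × k[X]) := {p | IsCurve N p.1 p.2}

/-- The curve `y ^ 2 = x ^ 3 + a x + b` over `K = k(t)`. -/
noncomputable def curve {k : Type} [Field k] (K : Type) [Field K] [Algebra k[X] K]
    (p : k[X] × k[X]) : WeierstrassCurve K :=
  ⟨0, 0, 0, algebraMap k[X] K p.1, algebraMap k[X] K p.2⟩

/-- For every finite field `k` of characteristic at least five there is a positive constant `c`
such that for all large `N` at least `c` times the number of all the curves of height at most `N` have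
a finite group of rational points over `K = k(t)`, of odd order, and trivial 2-primary part of the
Tate-Shafarevich group. -/
theorem result (k : Type) [Field k] [Finite k] (h6 : (6 : k) ≠ 0) (K : Type) [Field K]
    [Algebra k[X] K] [IsFractionRing k[X] K] :
    (∀ N : ℕ, (Curves k N).Finite) ∧
    ∃ c : ℝ, 0 < c ∧ ∀ᶠ N : ℕ in atTop,
      0 < (Curves k N).ncard ∧
      c * ((Curves k N).ncard : ℝ) ≤
        (({p ∈ Curves k N | Finite (Pt (curve K p) K) ∧ Odd (Nat.card (Pt (curve K p) K)) ∧
          ShaTwo k (curve K p)}).ncard : ℝ) := by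
  have hcrv : ∀ (N : ℕ) (a b : k[X]), Pool.Agent.N874.PP.Crv N a b ↔ IsCurve N a b := by
    intro N a b
    constructor
    · rintro ⟨h1, h2, h3, h4, h5⟩
      refine ⟨h1, h2, h3, fun Q hQ h => h4 Q hQ h.1 h.2, ?_⟩
      rintro ⟨c, d, hcd, h⟩
      exact h5 c d hcd h
    · rintro ⟨h1, h2, h3, h4, h5⟩
      exact ⟨h1, h2, h3, fun Q hQ ha hb => h4 Q hQ ⟨ha, hb⟩, fun c d hcd h => h5 ⟨c, d, hcd, h⟩⟩
  have hset : ∀ N : ℕ, Curves k N = {p : k[X] × k[X] | Pool.Agent.N874.PP.Crv N p.1 p.2} := by
    intro N
    ext p
    exact (hcrv N p.1 p.2).symm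
  have hfin : ∀ N : ℕ, (Curves k N).Finite := fun N => by
    rw [hset]
    exact Pool.Agent.N874.PP.crv_fin N
  refine ⟨hfin, ?_⟩
  obtain ⟨c, hc, N₀, h⟩ := Pool.Agent.N874.PP.final k h6 K
  have hq : (0 : ℝ) < Nat.card k := by exact_mod_cast Nat.card_pos
  refine ⟨c / (Nat.card k : ℝ) ^ 2, by positivity, ?_⟩
  filter_upwards [eventually_ge_atTop N₀] with N hN
  have h1 := h N hN
  have h2 : {p : k[X] × k[X] | Pool.Agent.N874.PP.Crv N p.1 p.2 ∧ Pool.Agent.N874.PP.Good K p} ⊆
      {p ∈ Curves k N | Finite (Pt (curve K p) K) ∧ Odd (Nat.card (Pt (curve K p) K)) ∧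
          ShaTwo k (curve K p)} := by
    rintro p ⟨hp, hd, hf, hsha⟩
    have hf' : Finite (Pt (curve K p) K) := hf
    exact ⟨(hcrv N p.1 p.2).1 hp, hf, Pool.Agent.N874.PP.odd_card (G := Pt (curve K p) K) hd, hsha⟩
  have h3 := Set.ncard_le_ncard h2 ((hfin N).subset fun p hp => hp.1)
  have h3' : (({p : k[X] × k[X] | Pool.Agent.N874.PP.Crv N p.1 p.2 ∧
      Pool.Agent.N874.PP.Good K p}).ncard : ℝ) ≤
      (({p ∈ Curves k N | Finite (Pt (curve K p) K) ∧ Odd (Nat.card (Pt (curve K p) K)) ∧
          ShaTwo k (curve K p)}).ncard : ℝ) := by exact_mod_cast h3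
  have h4 : ((Curves k N).ncard : ℝ) ≤ (Nat.card k : ℝ) ^ (10 * N + 2) := by
    rw [hset]
    exact_mod_cast Pool.Agent.N874.PP.crv_card (k := k) N
  have h5 := Set.ncard_le_ncard (fun p hp => hp.1 : {p ∈ Curves k N | Finite (Pt (curve K p) K) ∧
      Odd (Nat.card (Pt (curve K p) K)) ∧ ShaTwo k (curve K p)} ⊆ Curves k N) (hfin N)
  have h6' : (0 : ℝ) < (({p ∈ Curves k N | Finite (Pt (curve K p) K) ∧
      Odd (Nat.card (Pt (curve K p) K)) ∧ ShaTwo k (curve K p)}).ncard : ℝ) :=
    lt_of_lt_of_le (by positivity) (h1.trans h3')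
  refine ⟨lt_of_lt_of_le (by exact_mod_cast h6') h5, ?_⟩
  calc c / (Nat.card k : ℝ) ^ 2 * ((Curves k N).ncard : ℝ)
      ≤ c / (Nat.card k : ℝ) ^ 2 * (Nat.card k : ℝ) ^ (10 * N + 2) := by gcongr
    _ = c * (Nat.card k : ℝ) ^ (10 * N) := by
      rw [pow_add]
      field_simp
    _ ≤ _ := h1.trans h3'

end Pool.Agent.Results.MP_48b749_nt.PositiveProportionOfCurves
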